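import Pool.Agent.Lib.MP_b3d6af_lc.Prov.Sem
import Pool.Agent.Lib.MP_b3d6af_lc.Prov.Sound

/-!
Assuming boldface `Π¹_{n+1}` determinacy, there is a countable transitive model `V` of ZFC with
boldface `Π¹_{n+1}` determinacy over which a lightface `Σ¹₂` proper forcing adds a new orbit to
a provably `Δ¹_{n+3}` equivalence relation with at most two classes. The equivalence of the
`Σ¹_{n+3}` formula `θ` with the `Π¹_{n+3}` formula `¬ η`, both written in the language of set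
theory, has a formal proof in first-order logic from no axioms, hence from the axioms of ZFC.
-/

namespace Pool.Agent.Results.MP_b3d6af_lc.NewOrbitProv

open Pool.Agent.Lib.MP_b3d6af_lc Pool.Agent.Lib.MP_b3d6af_lc.Prov

/-- Sanity check: the calculus `Prf` is sound. -/
theorem sound {Γ : List Fm} {φ : Fm} (h : Prf Γ φ) (M : Set ZFSet.{0}) (v : ℕ → ZFSet.{0})
    (hv : ∀ i, v i ∈ M) (H : ∀ ψ ∈ Γ, Sat M ψ v) : Sat M φ v :=
  h.sound M v hv H

/-- Sanity check: what is provable from no hypotheses is provable from any list of axioms. -/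
theorem weaken {φ : Fm} (h : Prf [] φ) (Γ : List Fm) : Prf Γ φ := by
  induction Γ with
  | nil => exact h
  | cons ψ Γ ih => exact ih.wk ψ

theorem result (n : ℕ) (h : Det (n + 1) Set.univ) :
    ∃ V, CTM V ∧ Det (n + 1) (Reals V) ∧ ∃ P le, Sigma12Forcing V P le ∧ Proper V P le ∧
      ∃ θ η φ : Ar,
        Prf [] (.all (.all (.imp (isReal 0) (.imp (isReal 1)
          (iff (tr (n + 3) θ) (neg (tr (n + 3) η))))))) ∧
        (∀ W, ZF W →
          (∀ a ∈ W, Sat W (isReal 0) (fun _ => a) ↔ ∃ x, a = real x) ∧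
          (∀ x ∈ Reals W, ∀ y ∈ Reals W,
            (∀ k ζ, Sat W (tr k ζ) (cons (real x) fun _ => real y) ↔ Rel k ζ W x y) ∧
            (Rel (n + 3) θ W x y ↔ ¬ Rel (n + 3) η W x y) ∧
            (Rel (n + 3) θ W x y ↔ (Sig (Reals W) 2 φ [x] ↔ Sig (Reals W) 2 φ [y]))) ∧
          (∀ x y z, Rel (n + 3) θ W x y → Rel (n + 3) θ W y z → Rel (n + 3) θ W x z) ∧
          Thin W (Rel (n + 3) θ W)) ∧
        (∃ G, Generic V P le G) ∧
        ∀ G, Generic V P le G → ∃ W, Ext V G W ∧ ∃ x, Rel (n + 3) θ W x x ∧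
          ∀ y ∈ Reals V, ¬ Rel (n + 3) θ W x y ∧ ¬ Rel (n + 3) θ W y x := by
  obtain ⟨V, h1, h2, P, le, h3, h4, θ, η, φ, h5, h6, h7⟩ := main0 n h
  refine ⟨V, h1, h2, P, le, h3, h4, θ, η, φ, h5.prf, fun W hW => ⟨fun a ha => ?_,
    fun x hx y hy => ⟨fun k ζ => ?_, (h6 W hW).1 x hx y hy⟩, (h6 W hW).2⟩, h7⟩
  · exact sat_isReal hW (v := fun _ => a) (r := 0) ha
  · rw [sat_tr hW hx hy]
    exact ⟨fun H => ⟨hx, hy, H⟩, fun H => H.2.2⟩

end Pool.Agent.Results.MP_b3d6af_lc.NewOrbitProv
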